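import Pool.Agent.Helper187.CC.Stmts

set_option autoImplicit false
open Finset MeasureTheory ProbabilityTheory

namespace H187CC

open Classical in
theorem sum_dirac_apply {α : Type} [Fintype α] [MeasurableSpace α] [DiscreteMeasurableSpace α]
    (W : α → ℝ) (hW : ∀ x, 0 ≤ W x) (S : Set α) :
    (∑ x, ENNReal.ofReal (W x) • Measure.dirac x : Measure α) S
      = ENNReal.ofReal (∑ x, if x ∈ S then W x else 0) := by
  rw [Measure.finsetSum_apply]
  rw [ENNReal.ofReal_sum_of_nonneg]
  · refine Finset.sum_congr rfl fun x _ => ?_
    rw [Measure.smul_apply, Measure.dirac_apply' _ (MeasurableSet.of_discrete), smul_eq_mul]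
    by_cases h : x ∈ S
    · simp [h]
    · simp [h]
  · intro x _
    split_ifs
    · exact hW x
    · exact le_rfl

open Classical in
theorem taskMeas : TaskMeas := by
  intro q k n W hn hW0 hW1 hperm hbad hind
  have hprob : IsProbabilityMeasure
      (∑ x, ENNReal.ofReal (W x) • Measure.dirac x : Measure (Fin n → Fin q)) := by
    constructor
    rw [sum_dirac_apply W hW0]
    simp [hW1]
  refine ⟨∑ x, ENNReal.ofReal (W x) • Measure.dirac x, hprob, ?_, ?_, ?_⟩
  · rw [ae_iff, sum_dirac_apply W hW0]
    rw [Finset.sum_eq_zero]
    · simp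
    · intro x _
      split_ifs with h
      · simp only [Set.mem_ofPred_eq, not_forall, not_not] at h
        obtain ⟨i, j, hij, he⟩ := h
        exact hbad x i j hij he
      · rfl
  · intro σ
    ext S hS
    rw [Measure.map_apply (measurable_of_finite _) hS, sum_dirac_apply W hW0, sum_dirac_apply W hW0]
    congr 1
    let e : (Fin n → Fin q) ≃ (Fin n → Fin q) := (Equiv.refl (Fin n)).arrowCongr σ
    rw [← Equiv.sum_comp e (fun x => if x ∈ S then W x else 0)]
    refine Finset.sum_congr rfl fun x _ => ?_
    have he : e x = σ ∘ x := by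
      ext i
      simp [e, Equiv.arrowCongr]
    rw [he]
    have h2 : W (σ ∘ x) = W x := hperm σ x
    rw [h2]
    rfl
  · intro A B hAB
    rw [indepFun_iff_measure_inter_preimage_eq_mul]
    intro s t hs ht
    rw [sum_dirac_apply W hW0, sum_dirac_apply W hW0, sum_dirac_apply W hW0]
    rw [← ENNReal.ofReal_mul (Finset.sum_nonneg (fun x _ => by split_ifs <;> [exact hW0 x; exact le_rfl]))]
    congr 1
    -- key on singletons
    have key : ∀ (a : A → Fin q) (b : B → Fin q),
        ∑ x : Fin n → Fin q, W x * ((if (fun i : A => x i) = a then 1 else 0) *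
          (if (fun i : B => x i) = b then 1 else 0))
        = (∑ x : Fin n → Fin q, W x * (if (fun i : A => x i) = a then 1 else 0)) *
          (∑ x : Fin n → Fin q, W x * (if (fun i : B => x i) = b then 1 else 0)) := by
      intro a b
      let f : Fin n → (Fin q → ℝ) := fun i c => if h : i ∈ A then (if c = a ⟨i, h⟩ then 1 else 0) else 1
      let g : Fin n → (Fin q → ℝ) := fun i c => if h : i ∈ B then (if c = b ⟨i, h⟩ then 1 else 0) else 1
      have hf : ∀ x : Fin n → Fin q, ∏ i, f i (x i) = if (fun i : A => x i) = a then 1 else 0 := by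
        intro x
        split_ifs with h
        · apply Finset.prod_eq_one
          intro i _
          simp only [f]
          split_ifs with h1 h2
          · rfl
          · exact absurd (congrFun h ⟨i, h1⟩) h2
          · rfl
        · obtain ⟨i, hi⟩ := Function.ne_iff.mp h
          apply Finset.prod_eq_zero (Finset.mem_univ (i : Fin n))
          simp only [f]
          rw [dif_pos i.2, if_neg hi]
      have hg : ∀ x : Fin n → Fin q, ∏ i, g i (x i) = if (fun i : B => x i) = b then 1 else 0 := by
        intro x
        split_ifs with h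
        · apply Finset.prod_eq_one
          intro i _
          simp only [g]
          split_ifs with h1 h2
          · rfl
          · exact absurd (congrFun h ⟨i, h1⟩) h2
          · rfl
        · obtain ⟨i, hi⟩ := Function.ne_iff.mp h
          apply Finset.prod_eq_zero (Finset.mem_univ (i : Fin n))
          simp only [g]
          rw [dif_pos i.2, if_neg hi]
      have hfA : ∀ i, f i ≠ 1 → i ∈ A := by
        intro i hi
        by_contra h
        apply hi
        ext c
        simp only [f]
        rw [dif_neg h]; rfl
      have hgB : ∀ i, g i ≠ 1 → i ∈ B := by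
        intro i hi
        by_contra h
        apply hi
        ext c
        simp only [g]
        rw [dif_neg h]; rfl
      simp_rw [← hf, ← hg]
      by_cases h1 : ∃ i, f i ≠ 1
      · by_cases h2 : ∃ j, g j ≠ 1
        · have := hind f g h1 h2 (fun i j hi hj => hAB i (hfA i hi) j (hgB j hj))
          rw [← this]
          refine Finset.sum_congr rfl fun x _ => ?_
          rw [Finset.prod_mul_distrib]
        · push Not at h2
          simp [h2, hW1]
      · push Not at h1
        simp [h1, hW1]
    have e1 : ∀ x : Fin n → Fin q, (if x ∈ (fun x : Fin n → Fin q => fun a : A => x a) ⁻¹' s then W x else 0)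
        = ∑ a ∈ univ.filter (fun a : A → Fin q => a ∈ s), W x * (if (fun i : A => x i) = a then 1 else 0) := by
      intro x
      simp [Finset.sum_ite_eq, Set.mem_preimage]
    have e2 : ∀ x : Fin n → Fin q, (if x ∈ (fun x : Fin n → Fin q => fun a : B => x a) ⁻¹' t then W x else 0)
        = ∑ b ∈ univ.filter (fun b : B → Fin q => b ∈ t), W x * (if (fun i : B => x i) = b then 1 else 0) := by
      intro x
      simp [Finset.sum_ite_eq, Set.mem_preimage]
    have e3 : ∀ x : Fin n → Fin q, (if x ∈ (fun x : Fin n → Fin q => fun a : A => x a) ⁻¹' s ∩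
          (fun x : Fin n → Fin q => fun a : B => x a) ⁻¹' t then W x else 0)
        = ∑ a ∈ univ.filter (fun a : A → Fin q => a ∈ s), ∑ b ∈ univ.filter (fun b : B → Fin q => b ∈ t),
          W x * ((if (fun i : A => x i) = a then 1 else 0) * (if (fun i : B => x i) = b then 1 else 0)) := by
      intro x
      simp only [← Finset.mul_sum]
      by_cases h1 : (fun a : A => x a) ∈ s <;> by_cases h2 : (fun a : B => x a) ∈ t <;>
        simp [h1, h2, Finset.sum_ite_eq]
    rw [Finset.sum_congr rfl (fun x _ => e1 x), Finset.sum_congr rfl (fun x _ => e2 x)]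
    refine Eq.trans (Finset.sum_congr rfl (fun x _ => ?_) : _ = ∑ x : Fin n → Fin q,
        ∑ a ∈ univ.filter (fun a : A → Fin q => a ∈ s), ∑ b ∈ univ.filter (fun b : B → Fin q => b ∈ t),
          W x * ((if (fun i : A => x i) = a then 1 else 0) * (if (fun i : B => x i) = b then 1 else 0))) ?_
    · rw [← e3 x]
      congr
    rw [Finset.sum_comm, Finset.sum_comm (s := (univ : Finset (Fin n → Fin q))),
      Finset.sum_comm (s := (univ : Finset (Fin n → Fin q)))]
    rw [Finset.sum_mul_sum]
    refine Finset.sum_congr rfl fun a _ => ?_
    rw [Finset.sum_comm]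
    refine Finset.sum_congr rfl fun b _ => ?_
    exact key a b

end H187CC
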